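import Mathlib
import Pool.Agent.Q197.LFinal

/-!
# MP_ec556a_an: `L₁ + L_∞` is not isomorphic to a dual space

Suppose that `T : Y* → L₁ + L_∞` is an isomorphism.

* (approximation, `Q197/LTree.lean`) For disjoint sets `E k` in `(0, 1)` the functionals
  `f ↦ ∫_{E k} T f` on `Y*` have bounded sign sums; a Helly type argument (`Q197/HellyFam.lean`)
  gives `y k ∈ Y` with bounded sign sums (`∑ k, |f (y k)| ≤ b ‖f‖`) whose transposed images in
  `L₂(0, 1)` are close to the indicators of the `E k`.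
* (branches, `Q197/LBranch.lean`) Do this for all dyadic partitions.  Then for all `x` in an
  uncountable set `G` there is `f_x ∈ Y*`, a weak* cluster point of functions of mass one
  concentrating near `x`, with `f_x (y_{n,k}) ≥ 1/2` whenever `x` lies in the `k`-th cell of the
  `n`-th partition.
* (contradiction, `Q197/LFinal.lean`) Write `T f_x = u_x + v_x` with `u_x ∈ L₁` and `v_x ∈ L_∞`.  As
  `L₁` is separable, there are arbitrarily many `x` whose `u_x` are close to a fixed `u`.  For `N`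
  such points and a fine partition the functionals `y_{n,k(x)}` have bounded sign sums, but are large
  at `v_x`; Riesz products (`Q197/RieszProd.lean`) show that this is impossible in `L_∞`.
-/

set_option autoImplicit false

namespace Pool.Agent.Results.MP_ec556a_an.NotDual

open MeasureTheory Set Pool.Agent.Q197
open scoped ENNReal

/-- Lebesgue measure on `(0, ∞)`. -/
noncomputable abbrev leb : Measure ℝ := volume.restrict (Ioi 0)

/-- The class `x` (modulo equality almost everywhere) is the sum of the integrable class `u` and the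
essentially bounded class `v`. -/
def IsDecomp (x u v : ℝ →ₘ[leb] ℝ) : Prop :=
  x = u + v ∧ eLpNorm u 1 leb < ∞ ∧ eLpNorm v ∞ leb < ∞

/-- The norm `‖x‖ = inf {‖u‖₁ + ‖v‖_∞ : x = u + v}` of `L₁ + L_∞`. -/
noncomputable def sumNorm (x : ℝ →ₘ[leb] ℝ) : ℝ :=
  sInf {r | ∃ u v, IsDecomp x u v ∧ r = (eLpNorm u 1 leb).toReal + (eLpNorm v ∞ leb).toReal}

lemma isDecomp_iff (x u v : ℝ →ₘ[leb] ℝ) : IsDecomp x u v ↔
    ∃ (u' : Lp ℝ 1 leb) (v' : Lp ℝ ∞ leb), u'.1 = u ∧ v'.1 = v ∧ x = u'.1 + v'.1 := by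
  constructor
  · rintro ⟨h1, h2, h3⟩
    exact ⟨⟨u, h2⟩, ⟨v, h3⟩, rfl, rfl, h1⟩
  · rintro ⟨u', v', rfl, rfl, h⟩
    exact ⟨h, u'.2, v'.2⟩

lemma norm_eq (x : LSum.L1Linf) : ‖x‖ = sumNorm x.1 := by
  rw [LSum.norm_def, sumNorm]
  congr 1
  ext r
  constructor
  · rintro ⟨u, v, h1, rfl⟩
    exact ⟨u.1, v.1, ⟨h1, u.2, v.2⟩, rfl⟩
  · rintro ⟨u, v, ⟨h1, h2, h3⟩, rfl⟩
    exact ⟨⟨u, h2⟩, ⟨v, h3⟩, h1, rfl⟩

/-- **`L₁ + L_∞` is not isomorphic to a dual Banach space.**  For no real normed space `Y` is there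
a linear map `T` from the dual space `Y*` whose image is the set of all `x = u + v` with
`u ∈ L₁(0, ∞)` and `v ∈ L_∞(0, ∞)`, and such that the norms `‖f‖` and `‖T f‖_{L₁ + L_∞}` are
equivalent. -/
theorem result (Y : Type*) [NormedAddCommGroup Y] [NormedSpace ℝ Y] :
    ¬ ∃ (T : StrongDual ℝ Y →ₗ[ℝ] (ℝ →ₘ[leb] ℝ)) (a b : ℝ), 0 < a ∧
      (∀ x, (∃ f, T f = x) ↔ ∃ u v, IsDecomp x u v) ∧
      ∀ f, a * ‖f‖ ≤ sumNorm (T f) ∧ sumNorm (T f) ≤ b * ‖f‖ := by
  rintro ⟨T, a, b, ha, hr, hn⟩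
  have hmem : ∀ f, T f ∈ LSum.sumSpace := by
    intro f
    obtain ⟨u, v, huv⟩ := (hr (T f)).1 ⟨f, rfl⟩
    obtain ⟨u', v', -, -, h⟩ := (isDecomp_iff _ _ _).1 huv
    exact ⟨u', v', h⟩
  let S : StrongDual ℝ Y →ₗ[ℝ] LSum.L1Linf :=
    { toFun := fun f => (⟨T f, hmem f⟩ : LSum.sumSpace)
      map_add' := fun f g => Subtype.ext (map_add T f g)
      map_smul' := fun c f => Subtype.ext (map_smul T c f) }
  have hS : ∀ f, ‖S f‖ = sumNorm (T f) := fun f => norm_eq (S f)
  have hinj : Function.Injective S := by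
    intro f g hfg
    have h1 : S (f - g) = 0 := by rw [map_sub, hfg, sub_self]
    have h2 := (hn (f - g)).1
    rw [← hS, h1, norm_zero] at h2
    have h3 : ‖f - g‖ ≤ 0 := by
      by_contra hcon
      push Not at hcon
      have := mul_pos ha hcon
      linarith
    exact sub_eq_zero.1 (norm_le_zero_iff.1 h3)
  have hsurj : Function.Surjective S := by
    rintro ⟨x, u, v, hx⟩
    obtain ⟨f, hf⟩ := (hr x).2 ⟨u.1, v.1, hx, u.2, v.2⟩
    exact ⟨f, Subtype.ext hf⟩
  let e : StrongDual ℝ Y ≃ₗ[ℝ] LSum.L1Linf := LinearEquiv.ofBijective S ⟨hinj, hsurj⟩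
  have he : ∀ f, e f = S f := fun f => rfl
  refine (LFinal.not_dual Y).false (e.toContinuousLinearEquivOfBounds b a⁻¹ ?_ ?_)
  · intro f
    rw [he, hS]
    exact (hn f).2
  · intro x
    have h1 := (hn (e.symm x)).1
    rw [← hS, ← he, e.apply_symm_apply] at h1
    rw [← div_eq_inv_mul, le_div_iff₀ ha, mul_comm]
    exact h1

end Pool.Agent.Results.MP_ec556a_an.NotDual
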